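import Pool.Agent.R847.BT.Stm

/-!
# The identity principle for infinite exponential sums (task BT-I)
-/

set_option autoImplicit false

namespace Pool.Agent.R847.BT.Idn

open Filter Topology Pool.Agent.R847.BT

theorem evt_mul_le (A : ℕ) (d : ℕ) (hd : 2 ≤ d) (b L0 : ℕ) (hL : 1 ≤ L0) :
    ∀ᶠ l : ℕ in atTop, A * l ≤ d ^ (b + L0 * l) := by
  refine eventually_atTop.2 ⟨4 * A, fun l hl => ?_⟩
  have h0 : l ≤ b + L0 * l := by
    have : 1 * l ≤ L0 * l := Nat.mul_le_mul_right _ hL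
    omega
  have h1 : 2 ^ l ≤ d ^ (b + L0 * l) :=
    (Nat.pow_le_pow_left hd l).trans (Nat.pow_le_pow_right (by omega) h0)
  have h2 : 2 ^ l = 2 ^ (l / 2) * 2 ^ (l - l / 2) := by
    rw [← pow_add]
    congr 1
    omega
  have h3 : l / 2 < 2 ^ (l / 2) := Nat.lt_two_pow_self
  have h4 : l - l / 2 < 2 ^ (l - l / 2) := Nat.lt_two_pow_self
  have h6 : (2 * A) * (l - l / 2) ≤ 2 ^ (l / 2) * 2 ^ (l - l / 2) :=
    Nat.mul_le_mul (by omega) h4.le
  have h7 : A * l ≤ (2 * A) * (l - l / 2) := by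
    have : l ≤ 2 * (l - l / 2) := by omega
    calc A * l ≤ A * (2 * (l - l / 2)) := Nat.mul_le_mul_left _ this
      _ = _ := by ring
  omega

theorem growth {r r1 δ θ C : ℝ} (hr1 : 0 < r1) (hr : r1 < r) (hδ : 0 < δ) (hθ : 0 < θ)
    (d : ℕ) (hd : 2 ≤ d) (b L0 : ℕ) (hL : 1 ≤ L0) :
    ∀ᶠ l : ℕ in atTop, C * r1 ^ (d ^ (b + L0 * l) - 1) < δ * θ ^ l * r ^ (d ^ (b + L0 * l)) := by
  have hρ : 1 < r / r1 := (one_lt_div hr1).2 hr
  obtain ⟨A, hA⟩ := pow_unbounded_of_one_lt (2 / θ) hρ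
  have h1 := (tendsto_pow_atTop_atTop_of_one_lt (one_lt_two : (1 : ℝ) < 2)).eventually
    (eventually_gt_atTop (C / (δ * r1)))
  filter_upwards [evt_mul_le A d hd b L0 hL, h1] with l hl h2
  obtain ⟨N, hN⟩ : ∃ N, N = d ^ (b + L0 * l) := ⟨_, rfl⟩
  rw [← hN] at hl ⊢
  have hN1 : 1 ≤ N := by
    rw [hN]
    exact Nat.one_le_pow _ _ (by omega)
  have hr0 : r ^ N = (r / r1) ^ N * (r1 ^ (N - 1) * r1) := by
    rw [← pow_succ, Nat.sub_add_cancel hN1, ← mul_pow, div_mul_cancel₀ _ hr1.ne']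
  have h3 : (2 : ℝ) ^ l ≤ θ ^ l * (r / r1) ^ N := by
    have h4 : ((r / r1) ^ A) ^ l ≤ (r / r1) ^ N := by
      rw [← pow_mul]
      exact pow_le_pow_right₀ hρ.le hl
    have h5 : (2 : ℝ) ≤ θ * (r / r1) ^ A := by
      have := (div_lt_iff₀ hθ).1 hA
      linarith
    calc (2 : ℝ) ^ l ≤ (θ * (r / r1) ^ A) ^ l := pow_le_pow_left₀ (by norm_num) h5 l
      _ = θ ^ l * ((r / r1) ^ A) ^ l := by rw [mul_pow]
      _ ≤ θ ^ l * (r / r1) ^ N := mul_le_mul_of_nonneg_left h4 (pow_pos hθ l).le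
  have h6 : C < δ * r1 * 2 ^ l := by
    have := (div_lt_iff₀ (mul_pos hδ hr1)).1 h2
    linarith
  have h7 : 0 < r1 ^ (N - 1) := pow_pos hr1 _
  calc C * r1 ^ (N - 1) < δ * r1 * 2 ^ l * r1 ^ (N - 1) := mul_lt_mul_of_pos_right h6 h7
    _ ≤ δ * r1 * (θ ^ l * (r / r1) ^ N) * r1 ^ (N - 1) :=
      mul_le_mul_of_nonneg_right (mul_le_mul_of_nonneg_left h3 (mul_pos hδ hr1).le) h7.le
    _ = δ * θ ^ l * r ^ N := by
      rw [hr0]
      ring

theorem group {K : Type} [NormedField K] {d b L0 : ℕ}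
    (H : ∀ (ι : Type) (s : Finset ι) (c u : ι → K), (∀ e ∈ s, ‖u e‖ = 1) →
      (∀ l : ℕ, ∑ e ∈ s, c e * u e ^ (d ^ (b + L0 * l)) = 0) ∨
      ∃ δ : ℝ, 0 < δ ∧ ∃ θ : ℝ, 0 < θ ∧ ∀ᶠ l : ℕ in atTop,
        δ * θ ^ l ≤ ‖∑ e ∈ s, c e * u e ^ (d ^ (b + L0 * l))‖)
    {I : Type} (γ μ : I → K) (hμ : ∀ e, μ e ≠ 0) (s : Finset I) (r : ℝ)
    (hs : ∀ e ∈ s, ‖μ e‖ = r) :
    (∀ l : ℕ, ∑ e ∈ s, γ e * μ e ^ (d ^ (b + L0 * l)) = 0) ∨
      ∃ δ : ℝ, 0 < δ ∧ ∃ θ : ℝ, 0 < θ ∧ ∀ᶠ l : ℕ in atTop,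
        δ * θ ^ l * r ^ (d ^ (b + L0 * l)) ≤ ‖∑ e ∈ s, γ e * μ e ^ (d ^ (b + L0 * l))‖ := by
  rcases s.eq_empty_or_nonempty with rfl | ⟨e0, he0⟩
  · exact Or.inl fun l => Finset.sum_empty
  have hr : 0 < r := by
    rw [← hs e0 he0]
    exact norm_pos_iff.2 (hμ e0)
  have key : ∀ n : ℕ, ∑ e ∈ s, γ e * μ e ^ n =
      μ e0 ^ n * ∑ e ∈ s, γ e * (μ e / μ e0) ^ n := by
    intro n
    rw [Finset.mul_sum]
    refine Finset.sum_congr rfl fun e _ => ?_
    have h0 := pow_ne_zero n (hμ e0)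
    rw [div_pow]
    field_simp
  rcases H I s γ (fun e => μ e / μ e0) (fun e he => by
    rw [norm_div, hs e he, hs e0 he0, div_self hr.ne']) with h | ⟨δ, hδ, θ, hθ, h⟩
  · left
    intro l
    rw [key, h l, mul_zero]
  · right
    refine ⟨δ, hδ, θ, hθ, ?_⟩
    filter_upwards [h] with l hl
    rw [key, norm_mul, norm_pow, hs e0 he0, mul_comm]
    exact mul_le_mul_of_nonneg_left hl (pow_pos hr _).le

theorem main : P_I := by
  intro K _ _ d hd hD
  obtain ⟨b0, L0, hL0, H⟩ := hD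
  refine ⟨b0, L0, hL0, fun I γ μ hμ hsum hfin b hb hfreq => ?_⟩
  classical
  have hN1 : ∀ l, 1 ≤ d ^ (b + L0 * l) := fun l => Nat.one_le_pow _ _ (by omega)
  -- summability
  have hs : ∀ n : ℕ, 1 ≤ n → Summable fun e => γ e * μ e ^ n := by
    intro n hn
    refine Summable.of_norm_bounded_eventually hsum ?_
    have h1 : {e | 1 ≤ ‖μ e‖}ᶜ ∈ (cofinite : Filter I) := (hfin 1 one_pos).compl_mem_cofinite
    filter_upwards [h1] with e he
    have he' : ‖μ e‖ ≤ 1 := by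
      simp only [Set.mem_compl_iff, Set.mem_ofPred_eq, not_le] at he
      exact he.le
    rw [norm_mul, norm_pow]
    refine mul_le_mul_of_nonneg_left ?_ (norm_nonneg _)
    exact pow_le_of_le_one (norm_nonneg _) he' (by omega)
  have hμ' : ∀ e, 0 < ‖μ e‖ := fun e => norm_pos_iff.2 (hμ e)
  -- the level sets
  obtain ⟨G, hG⟩ : ∃ G : ℝ → Finset I, ∀ r e, e ∈ G r ↔ ‖μ e‖ = r := by
    have hfin' : ∀ r : ℝ, {e | ‖μ e‖ = r}.Finite := by
      intro r
      by_cases hr : 0 < r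
      · refine (hfin r hr).subset fun e he => ?_
        have he' : ‖μ e‖ = r := he
        exact he'.ge
      · have h1 : {e | ‖μ e‖ = r} = ∅ := by
          ext e
          simp only [Set.mem_ofPred_eq, Set.mem_empty_iff_false, iff_false]
          intro he
          exact hr (he ▸ hμ' e)
        rw [h1]
        exact Set.finite_empty
    refine ⟨fun r => (hfin' r).toFinset, fun r e => ?_⟩
    simp
  have psum : ∀ (f : I → K) (θ : ℝ) (hθ : 0 < θ), ∑ e ∈ (hfin θ hθ).toFinset, f e =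
      ∑ r ∈ (hfin θ hθ).toFinset.image fun e => ‖μ e‖, ∑ e ∈ G r, f e := by
    intro f θ hθ
    rw [← Finset.sum_fiberwise_of_maps_to (g := fun e => ‖μ e‖)
      (t := (hfin θ hθ).toFinset.image fun e => ‖μ e‖)
      (fun e he => Finset.mem_image_of_mem _ he)]
    refine Finset.sum_congr rfl fun r hr => ?_
    obtain ⟨e', he', rfl⟩ := Finset.mem_image.1 hr
    have he'' : θ ≤ ‖μ e'‖ := by
      have := (Set.Finite.mem_toFinset _).1 he'
      exact this
    congr 1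
    ext e
    rw [Finset.mem_filter, hG, Set.Finite.mem_toFinset, Set.mem_ofPred_eq]
    constructor
    · exact fun h => h.2
    · intro h
      exact ⟨by rw [h]; exact he'', h⟩
  by_cases hz : ∀ r, ∀ l, ∑ e ∈ G r, γ e * μ e ^ (d ^ (b + L0 * l)) = 0
  · -- every group vanishes
    intro l
    have hS := (hs _ (hN1 l)).hasSum
    by_contra hne
    have hpos := norm_pos_iff.2 hne
    have h1 := Metric.tendsto_atTop.1 hS _ hpos
    obtain ⟨s0, hs0⟩ := h1
    obtain ⟨θ, hθ, hθs⟩ : ∃ θ : ℝ, 0 < θ ∧ ∀ e ∈ s0, θ ≤ ‖μ e‖ := by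
      refine ⟨(insert 1 (s0.image fun e => ‖μ e‖)).min' (Finset.insert_nonempty _ _), ?_,
        fun e he => ?_⟩
      · have h2 := Finset.min'_mem (insert (1 : ℝ) (s0.image fun e => ‖μ e‖))
          (Finset.insert_nonempty _ _)
        rcases Finset.mem_insert.1 h2 with h3 | h3
        · rw [h3]
          exact one_pos
        · obtain ⟨e, -, he⟩ := Finset.mem_image.1 h3
          rw [← he]
          exact hμ' e
      · exact Finset.min'_le _ _ (Finset.mem_insert_of_mem (Finset.mem_image_of_mem _ he))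
    have h2 := hs0 (hfin θ hθ).toFinset (fun e he => by
      rw [Set.Finite.mem_toFinset]
      exact hθs e he)
    rw [psum _ _ hθ, Finset.sum_eq_zero fun r _ => hz r l, dist_zero_left] at h2
    exact lt_irrefl _ h2
  · exfalso
    push Not at hz
    obtain ⟨r', l', hr'⟩ := hz
    have hne : ∀ r, (¬ ∀ l, ∑ e ∈ G r, γ e * μ e ^ (d ^ (b + L0 * l)) = 0) →
        ∃ e, ‖μ e‖ = r := by
      intro r hr
      by_contra hcon
      apply hr
      intro l
      have h1 : G r = ∅ := by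
        rw [Finset.eq_empty_iff_forall_notMem]
        intro e he
        exact hcon ⟨e, (hG r e).1 he⟩
      rw [h1, Finset.sum_empty]
    have hPr' : ¬ ∀ l, ∑ e ∈ G r', γ e * μ e ^ (d ^ (b + L0 * l)) = 0 := fun h => hr' (h l')
    obtain ⟨e', he'⟩ := hne r' hPr'
    have hr'0 : 0 < r' := he' ▸ hμ' e'
    obtain ⟨V, hV⟩ : ∃ V : Finset ℝ, V = ((hfin r' hr'0).toFinset.image fun e => ‖μ e‖).filter
      fun r => ¬ ∀ l, ∑ e ∈ G r, γ e * μ e ^ (d ^ (b + L0 * l)) = 0 := ⟨_, rfl⟩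
    have hVm : ∀ r, r ∈ V ↔ r' ≤ r ∧ ¬ ∀ l, ∑ e ∈ G r, γ e * μ e ^ (d ^ (b + L0 * l)) = 0 := by
      intro r
      rw [hV, Finset.mem_filter, Finset.mem_image]
      constructor
      · rintro ⟨⟨e, he, rfl⟩, h2⟩
        have h3 := (Set.Finite.mem_toFinset _).1 he
        exact ⟨h3, h2⟩
      · rintro ⟨h1, h2⟩
        obtain ⟨e, he⟩ := hne r h2
        refine ⟨⟨e, ?_, he⟩, h2⟩
        rw [Set.Finite.mem_toFinset, Set.mem_ofPred_eq, he]
        exact h1
    have hVne : V.Nonempty := ⟨r', (hVm r').2 ⟨le_rfl, hPr'⟩⟩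
    obtain ⟨r, hr, hmax⟩ : ∃ r ∈ V, ∀ r'' ∈ V, r'' ≤ r :=
      ⟨V.max' hVne, V.max'_mem hVne, fun r'' h => V.le_max' r'' h⟩
    obtain ⟨hrr', hPr⟩ := (hVm r).1 hr
    have hr0 : 0 < r := hr'0.trans_le hrr'
    have hbig : ∀ r'', r < r'' → ∀ l, ∑ e ∈ G r'', γ e * μ e ^ (d ^ (b + L0 * l)) = 0 := by
      intro r'' hlt
      by_contra hcon
      exact absurd (hmax r'' ((hVm r'').2 ⟨(hrr'.trans hlt.le), hcon⟩)) (not_le.2 hlt)
    obtain ⟨er, her⟩ := hne r hPr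
    -- the sum over the large terms
    have hF : ∀ l, ∑ e ∈ (hfin r hr0).toFinset, γ e * μ e ^ (d ^ (b + L0 * l)) =
        ∑ e ∈ G r, γ e * μ e ^ (d ^ (b + L0 * l)) := by
      intro l
      rw [psum _ _ hr0]
      refine Finset.sum_eq_single r (fun r'' h1 h2 => ?_) fun h1 => ?_
      · obtain ⟨e, he, rfl⟩ := Finset.mem_image.1 h1
        have h3' := (Set.Finite.mem_toFinset _).1 he
        have h3 : r ≤ ‖μ e‖ := h3'
        exact hbig _ (lt_of_le_of_ne h3 (Ne.symm h2)) l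
      · exfalso
        apply h1
        refine Finset.mem_image.2 ⟨er, ?_, her⟩
        rw [Set.Finite.mem_toFinset, Set.mem_ofPred_eq, her]
    -- the bound for the small terms
    obtain ⟨r1, hr10, hr1r, hr1⟩ : ∃ r1 : ℝ, 0 < r1 ∧ r1 < r ∧ ∀ e, ‖μ e‖ < r → ‖μ e‖ ≤ r1 := by
      have hr2 : 0 < r / 2 := by positivity
      obtain ⟨W, hW⟩ : ∃ W : Finset ℝ, W = insert (r / 2)
        (((hfin (r / 2) hr2).toFinset.image fun e => ‖μ e‖).filter fun t => t < r) := ⟨_, rfl⟩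
      have hWne : W.Nonempty := by
        rw [hW]
        exact Finset.insert_nonempty _ _
      have hWr2 : r / 2 ≤ W.max' hWne := W.le_max' _ (by
        rw [hW]
        exact Finset.mem_insert_self _ _)
      refine ⟨W.max' hWne, hr2.trans_le hWr2, ?_, fun e he => ?_⟩
      · have h2 := W.max'_mem hWne
        obtain ⟨t, ht⟩ : ∃ t, t = W.max' hWne := ⟨_, rfl⟩
        rw [← ht] at h2 ⊢
        rw [hW, Finset.mem_insert] at h2
        rcases h2 with h2 | h2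
        · rw [h2]
          linarith
        · exact (Finset.mem_filter.1 h2).2
      · by_cases h3 : r / 2 ≤ ‖μ e‖
        · refine W.le_max' _ ?_
          rw [hW]
          refine Finset.mem_insert_of_mem (Finset.mem_filter.2 ⟨Finset.mem_image.2
            ⟨e, ?_, rfl⟩, he⟩)
          rw [Set.Finite.mem_toFinset]
          exact h3
        · exact (not_le.1 h3).le.trans hWr2
    -- the tail
    obtain ⟨C, hC⟩ : ∃ C, C = ∑' e : {e // e ∉ (hfin r hr0).toFinset}, ‖γ e‖ * ‖μ e‖ := ⟨_, rfl⟩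
    have htail : ∀ l, ‖∑' e : {e // e ∉ (hfin r hr0).toFinset},
        γ e * μ e ^ (d ^ (b + L0 * l))‖ ≤ C * r1 ^ (d ^ (b + L0 * l) - 1) := by
      intro l
      obtain ⟨n, hn⟩ : ∃ n, n = d ^ (b + L0 * l) := ⟨_, rfl⟩
      have hn1 : 1 ≤ n := by
        rw [hn]
        exact hN1 l
      rw [← hn]
      have h1 : HasSum (fun e : {e // e ∉ (hfin r hr0).toFinset} =>
          ‖γ e‖ * ‖μ e‖ * r1 ^ (n - 1)) (C * r1 ^ (n - 1)) := by
        rw [hC]
        exact (hsum.subtype _).hasSum.mul_right _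
      refine tsum_of_norm_bounded h1 fun e => ?_
      have h2 : ‖μ e‖ < r := by
        have h3 := e.2
        rw [Set.Finite.mem_toFinset, Set.mem_ofPred_eq, not_le] at h3
        exact h3
      rw [norm_mul, norm_pow, mul_assoc]
      refine mul_le_mul_of_nonneg_left ?_ (norm_nonneg _)
      have h3 : ‖μ e‖ ^ n = ‖μ e‖ * ‖μ e‖ ^ (n - 1) := by
        rw [← pow_succ', Nat.sub_add_cancel hn1]
      rw [h3]
      exact mul_le_mul_of_nonneg_left (pow_le_pow_left₀ (norm_nonneg _) (hr1 _ h2) _)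
        (norm_nonneg _)
    rcases group (H := fun ι s c u hu => H ι s c u hu b hb) γ μ hμ (G r) r
      (fun e he => (hG r e).1 he) with h | ⟨δ, hδ, θ, hθ, h⟩
    · exact hPr h
    · obtain ⟨l, hl0, hl1, hl2⟩ := (hfreq.and_eventually (h.and
        (growth (C := C) hr10 hr1r hδ hθ d hd b L0 hL0))).exists
      have h1 := (hs _ (hN1 l)).sum_add_tsum_subtype_compl (hfin r hr0).toFinset
      rw [hl0, hF] at h1
      have h2 : ‖∑ e ∈ G r, γ e * μ e ^ (d ^ (b + L0 * l))‖ =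
          ‖∑' e : {e // e ∉ (hfin r hr0).toFinset}, γ e * μ e ^ (d ^ (b + L0 * l))‖ := by
        rw [eq_neg_of_add_eq_zero_left h1, norm_neg]
      have h3 := htail l
      rw [← h2] at h3
      linarith

end Pool.Agent.R847.BT.Idn
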