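import Pool.Agent.R847.BT.Stm

/-!
# Task BT-P: the dichotomy over local fields of residue characteristic dividing `d`
-/

set_option autoImplicit false

namespace Pool.Agent.R847.BT.Padic

open Filter Topology Metric Set

section

variable {K : Type} [NontriviallyNormedField K] [IsUltrametricDist K]

theorem norm_natCast_le (n : ℕ) : ‖(n : K)‖ ≤ 1 := IsUltrametricDist.norm_natCast_le_one K n

/-- A prime of norm less than one. -/
theorem exists_prime (n : ℕ) (hn : n ≠ 0) (h : ‖(n : K)‖ < 1) :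
    ∃ p : ℕ, p.Prime ∧ ‖(p : K)‖ < 1 := by
  induction n using Nat.strong_induction_on with
  | _ n ih =>
    by_cases h1 : n = 1
    · subst h1
      simp at h
    · have hp := Nat.minFac_prime h1
      by_cases h2 : ‖((n.minFac : ℕ) : K)‖ < 1
      · exact ⟨_, hp, h2⟩
      · obtain ⟨q, hq⟩ := Nat.minFac_dvd n
        have hq0 : q ≠ 0 := by
          rintro rfl
          rw [mul_zero] at hq
          exact hn hq
        have hqn : q < n := by
          have := hp.two_le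
          have h3 : 0 < q := Nat.pos_of_ne_zero hq0
          nlinarith
        refine ih q hqn hq0 ?_
        have h3 : (n : K) = ((n.minFac : ℕ) : K) * (q : K) := by
          have := congrArg (fun z : ℕ => (z : K)) hq
          push_cast at this
          exact this
        rw [h3, norm_mul] at h
        have h4 : ‖((n.minFac : ℕ) : K)‖ = 1 :=
          le_antisymm (norm_natCast_le _) (not_lt.1 h2)
        rwa [h4, one_mul] at h

theorem norm_sub_le_max (x y z : K) : ‖x - z‖ ≤ max ‖x - y‖ ‖y - z‖ := by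
  have := IsUltrametricDist.norm_add_le_max (x - y) (y - z)
  simpa using this

theorem norm_pow_sub_one_le {x : K} {e : ℝ} (he : 0 ≤ e) (hx : ‖x‖ = 1) (h : ‖x - 1‖ ≤ e)
    (n : ℕ) : ‖x ^ n - 1‖ ≤ e := by
  induction n with
  | zero => simpa using he
  | succ n ih =>
    have h1 : x ^ (n + 1) - 1 = x * (x ^ n - 1) + (x - 1) := by ring
    rw [h1]
    refine (IsUltrametricDist.norm_add_le_max _ _).trans (max_le ?_ h)
    rw [norm_mul, hx, one_mul]
    exact ih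

theorem norm_one_of {x : K} {e : ℝ} (he : e < 1) (h : ‖x - 1‖ ≤ e) : ‖x‖ = 1 := by
  have h1 : ‖x - 1‖ < ‖(1 : K)‖ := by rw [norm_one]; exact h.trans_lt he
  have h2 := IsUltrametricDist.norm_add_eq_max_of_norm_ne_norm (x := x - 1) (y := 1) h1.ne
  rw [sub_add_cancel, max_eq_right h1.le, norm_one] at h2
  exact h2

/-- The contraction. -/
theorem norm_pow_sub_one_le_mul {x : K} {e : ℝ} (he0 : 0 ≤ e) (he : e < 1) (h : ‖x - 1‖ ≤ e)
    (D : ℕ) : ‖x ^ D - 1‖ ≤ ‖x - 1‖ * max ‖(D : K)‖ e := by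
  have hx := norm_one_of he h
  have h1 : x ^ D - 1 = (x - 1) * ∑ i ∈ Finset.range D, x ^ i := by
    rw [mul_comm, geom_sum_mul]
  have h2 : ∑ i ∈ Finset.range D, x ^ i = (D : K) + ∑ i ∈ Finset.range D, (x ^ i - 1) := by
    rw [Finset.sum_sub_distrib]
    simp
  rw [h1, norm_mul, h2]
  refine mul_le_mul_of_nonneg_left ?_ (norm_nonneg _)
  refine (IsUltrametricDist.norm_add_le_max _ _).trans (max_le_max le_rfl ?_)
  exact IsUltrametricDist.norm_sum_le_of_forall_le_of_nonneg he0 fun i _ =>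
    norm_pow_sub_one_le he0 hx h i

theorem norm_pow_pow_sub_one_le {x : K} {e κ : ℝ} (he0 : 0 ≤ e) (he : e < 1) (D : ℕ)
    (hκ : max ‖(D : K)‖ e ≤ κ) (hκ1 : κ ≤ 1) (h : ‖x - 1‖ ≤ e) (l : ℕ) :
    ‖x ^ (D ^ l) - 1‖ ≤ e * κ ^ l := by
  have hκ0 : 0 ≤ κ := he0.trans ((le_max_right _ _).trans hκ)
  induction l with
  | zero => simpa using h
  | succ l ih =>
    have h1 : ‖x ^ (D ^ l) - 1‖ ≤ e := ih.trans (by
      have := pow_le_one₀ (n := l) hκ0 hκ1
      nlinarith)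
    rw [pow_succ, pow_mul]
    calc ‖(x ^ D ^ l) ^ D - 1‖ ≤ ‖x ^ (D ^ l) - 1‖ * max ‖(D : K)‖ e :=
          norm_pow_sub_one_le_mul he0 he h1 D
      _ ≤ (e * κ ^ l) * κ := by gcongr
      _ = e * κ ^ (l + 1) := by ring

variable [ProperSpace K]

/-- One exponent for all units. -/
theorem exists_exponent {e : ℝ} (he0 : 0 < e) : ∃ M : ℕ, M ≠ 0 ∧ ∀ u : K, ‖u‖ = 1 →
    ‖u ^ M - 1‖ ≤ e := by
  obtain ⟨t, -, ht, hcov⟩ := (isCompact_sphere (0 : K) 1).finite_cover_balls he0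
  classical
  set T := ht.toFinset with hT
  refine ⟨T.card.factorial, Nat.factorial_ne_zero _, fun u hu => ?_⟩
  have hpow : ∀ n : ℕ, ‖u ^ n‖ = 1 := fun n => by rw [norm_pow, hu, one_pow]
  have h1 : ∀ n : ℕ, ∃ y ∈ T, dist (u ^ n) y < e := by
    intro n
    have h2 : u ^ n ∈ sphere (0 : K) 1 := by rw [mem_sphere_zero_iff_norm, hpow]
    have h3 := hcov h2
    simp only [mem_iUnion, mem_ball] at h3
    obtain ⟨y, hy, hy'⟩ := h3
    exact ⟨y, ht.mem_toFinset.2 hy, hy'⟩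
  choose g hg hg' using h1
  obtain ⟨i, hi, j, hj, hij, hgij⟩ := Finset.exists_ne_map_eq_of_card_lt_of_maps_to
    (s := Finset.range (T.card + 1)) (t := T) (by rw [Finset.card_range]; omega)
    (f := g) (fun n _ => hg n)
  have key : ∀ i j : ℕ, i < j → j ≤ T.card → g i = g j → ‖u ^ T.card.factorial - 1‖ ≤ e := by
    intro i j hij hj hgij
    have h2 : dist (u ^ j) (u ^ i) ≤ e := by
      refine (dist_triangle_max (u ^ j) (g j) (u ^ i)).trans (max_le (hg' j).le ?_)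
      rw [← hgij, dist_comm]
      exact (hg' i).le
    have h3 : u ^ j - u ^ i = u ^ i * (u ^ (j - i) - 1) := by
      rw [mul_sub, mul_one, ← pow_add, Nat.add_sub_cancel' hij.le]
    rw [dist_eq_norm, h3, norm_mul, hpow, one_mul] at h2
    obtain ⟨q, hq⟩ := Nat.dvd_factorial (Nat.sub_pos_of_lt hij)
      ((Nat.sub_le j i).trans hj)
    rw [hq, pow_mul]
    exact norm_pow_sub_one_le he0.le (hpow _) h2 q
  rw [Finset.mem_range] at hi hj
  rcases lt_or_gt_of_ne hij with h | h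
  · exact key i j h (by omega) hgij
  · exact key j i h (by omega) hgij.symm

/-- The limit of the powers. -/
theorem exists_limit {e κ : ℝ} (he0 : 0 ≤ e) (he : e < 1) (D : ℕ)
    (hκ : max ‖(D : K)‖ e ≤ κ) (hκ1 : κ < 1) (hD : 1 ≤ D) {v : K} (hv : ‖v‖ = 1)
    (h : ‖v ^ (D - 1) - 1‖ ≤ e) :
    ∃ w0 : K, ‖w0‖ = 1 ∧ ‖v / w0 - 1‖ ≤ e ∧ ∀ l : ℕ, v ^ (D ^ l) = w0 * (v / w0) ^ (D ^ l) := by
  have hκ0 : 0 ≤ κ := he0.trans ((le_max_right _ _).trans hκ)
  have hpow : ∀ n : ℕ, ‖v ^ n‖ = 1 := fun n => by rw [norm_pow, hv, one_pow]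
  have hstep : ∀ l : ℕ, ‖v ^ (D ^ (l + 1)) - v ^ (D ^ l)‖ ≤ e * κ ^ l := by
    intro l
    have h1 : v ^ (D ^ (l + 1)) - v ^ (D ^ l) = v ^ (D ^ l) * ((v ^ (D - 1)) ^ (D ^ l) - 1) := by
      rw [mul_sub, mul_one, ← pow_mul, ← pow_add]
      congr 2
      rw [pow_succ]
      obtain ⟨D', rfl⟩ : ∃ D', D = D' + 1 := ⟨D - 1, by omega⟩
      rw [Nat.add_sub_cancel]; ring
    rw [h1, norm_mul, hpow, one_mul]
    exact norm_pow_pow_sub_one_le he0 he D hκ hκ1.le h l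
  have hcauchy : CauchySeq fun l : ℕ => v ^ (D ^ l) := by
    refine cauchySeq_of_le_geometric κ e hκ1 fun l => ?_
    rw [dist_comm, dist_eq_norm]
    exact hstep l
  obtain ⟨w0, hw0⟩ := cauchySeq_tendsto_of_complete hcauchy
  have hn : ‖w0‖ = 1 := by
    refine tendsto_nhds_unique hw0.norm ?_
    simp only [hpow]
    exact tendsto_const_nhds
  have hne : w0 ≠ 0 := by
    rintro rfl
    rw [norm_zero] at hn
    exact zero_ne_one hn
  have hclose : ∀ l : ℕ, ‖v ^ (D ^ l) - v‖ ≤ e := by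
    intro l
    induction l with
    | zero => simpa using he0
    | succ l ih =>
      refine (norm_sub_le_max _ (v ^ (D ^ l)) _).trans (max_le ((hstep l).trans ?_) ih)
      have := pow_le_one₀ (n := l) hκ0 hκ1.le
      nlinarith
  have hclose' : ‖w0 - v‖ ≤ e :=
    le_of_tendsto ((hw0.sub_const v).norm) (Eventually.of_forall hclose)
  have hfix : w0 ^ D = w0 := by
    have h1 : Tendsto (fun l : ℕ => (v ^ (D ^ l)) ^ D) atTop (𝓝 (w0 ^ D)) := hw0.pow D
    have h2 : Tendsto (fun l : ℕ => v ^ (D ^ (l + 1))) atTop (𝓝 w0) :=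
      hw0.comp (tendsto_add_atTop_nat 1)
    refine tendsto_nhds_unique h1 (h2.congr fun l => ?_)
    rw [← pow_mul, pow_succ]
  have hfix' : ∀ l : ℕ, w0 ^ (D ^ l) = w0 := by
    intro l
    induction l with
    | zero => simp
    | succ l ih => rw [pow_succ, pow_mul, ih, hfix]
  refine ⟨w0, hn, ?_, fun l => ?_⟩
  · have h1 : v / w0 - 1 = (v - w0) / w0 := by field_simp
    rw [h1, norm_div, hn, div_one, norm_sub_rev]
    exact hclose'
  · have h1 : w0 * (v / w0) ^ (D ^ l) = w0 ^ (D ^ l) * (v / w0) ^ (D ^ l) := by rw [hfix']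
    rw [h1, ← mul_pow, mul_div_cancel₀ _ hne]

end

/-- The end of the argument: a power series in `x = D ^ l`. -/
theorem series_dich {K : Type} [NormedField K] {D : K} (hD0 : 0 < ‖D‖) (hD1 : ‖D‖ < 1)
    {β : ℕ → K} {B : ℝ} (hβ : ∀ j, ‖β j‖ ≤ B * (1 / 2) ^ j) {S : ℕ → K}
    (hS : ∀ l, HasSum (fun j => β j * (D ^ l) ^ j) (S l)) :
    (∀ l, S l = 0) ∨ ∃ δ : ℝ, 0 < δ ∧ ∃ θ : ℝ, 0 < θ ∧ ∀ᶠ l : ℕ in atTop,
      δ * θ ^ l ≤ ‖S l‖ := by
  classical
  by_cases hall : ∀ j, β j = 0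
  · left
    intro l
    have h1 := hS l
    simp only [hall, zero_mul] at h1
    exact h1.unique hasSum_zero
  right
  push Not at hall
  have hB : 0 ≤ B := by
    have := (norm_nonneg _).trans (hβ 0)
    simpa using this
  set j0 := Nat.find hall with hj0
  have hne : β j0 ≠ 0 := Nat.find_spec hall
  have hlt : ∀ j, j < j0 → β j = 0 := fun j hj => not_not.1 (Nat.find_min hall hj)
  have hpos : 0 < ‖β j0‖ := norm_pos_iff.2 hne
  -- the tail
  have htail : ∀ l, ‖S l - β j0 * (D ^ l) ^ j0‖ ≤ (‖D‖ ^ l) ^ (j0 + 1) * (2 * B) := by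
    intro l
    set x := ‖D‖ ^ l with hx
    have hx0 : 0 ≤ x := by positivity
    have hx1 : x ≤ 1 := pow_le_one₀ hD0.le hD1.le
    have h1 : HasSum (fun j => β j * (D ^ l) ^ j - if j = j0 then β j0 * (D ^ l) ^ j0 else 0)
        (S l - β j0 * (D ^ l) ^ j0) := (hS l).sub (hasSum_ite_eq j0 _)
    have h2 : HasSum (fun j : ℕ => x ^ (j0 + 1) * (B * (1 / 2 : ℝ) ^ j))
        (x ^ (j0 + 1) * (B * 2)) := (hasSum_geometric_two.mul_left B).mul_left _
    have h3 := h1.norm_le_of_bounded h2 fun j => ?_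
    · calc _ ≤ _ := h3
        _ = _ := by ring
    · by_cases hj : j = j0
      · subst hj
        rw [if_pos rfl, sub_self, norm_zero]
        positivity
      · rw [if_neg hj, sub_zero]
        rcases lt_or_gt_of_ne hj with h | h
        · rw [hlt j h, zero_mul, norm_zero]
          positivity
        · rw [norm_mul, norm_pow, norm_pow, ← hx]
          have h4 : x ^ j ≤ x ^ (j0 + 1) := pow_le_pow_of_le_one hx0 hx1 h
          calc ‖β j‖ * x ^ j ≤ (B * (1 / 2) ^ j) * x ^ (j0 + 1) := by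
                gcongr; exact hβ j
            _ = _ := by ring
  refine ⟨‖β j0‖ / 2, by positivity, ‖D‖ ^ j0, by positivity, ?_⟩
  have hlim : Tendsto (fun l : ℕ => ‖D‖ ^ l * (2 * B)) atTop (𝓝 0) := by
    have := (tendsto_pow_atTop_nhds_zero_of_lt_one hD0.le hD1).mul_const (2 * B)
    simpa using this
  filter_upwards [hlim.eventually (gt_mem_nhds (by positivity : 0 < ‖β j0‖ / 2))] with l hl
  have h1 := htail l
  have h2 : ‖β j0 * (D ^ l) ^ j0‖ = ‖β j0‖ * (‖D‖ ^ j0) ^ l := by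
    rw [norm_mul, norm_pow, norm_pow, ← pow_mul, ← pow_mul, mul_comm l j0]
  have h3 : ‖β j0 * (D ^ l) ^ j0‖ - ‖S l‖ ≤ ‖S l - β j0 * (D ^ l) ^ j0‖ := by
    rw [norm_sub_rev]
    exact norm_sub_norm_le _ _
  have h4 : (‖D‖ ^ l) ^ (j0 + 1) * (2 * B) = (‖D‖ ^ j0) ^ l * (‖D‖ ^ l * (2 * B)) := by
    rw [pow_succ, ← pow_mul, ← pow_mul, mul_comm l j0]; ring
  have h5 : 0 < (‖D‖ ^ j0) ^ l := by positivity
  rw [h2] at h3
  rw [h4] at h1
  nlinarith

theorem main (hV : P_V) : P_P := by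
  intro K _ _ _ _ d hd hd1
  have hd0 : (d : K) ≠ 0 := by
    have : d ≠ 0 := by omega
    exact_mod_cast this
  have hdn0 : 0 < ‖(d : K)‖ := norm_pos_iff.2 hd0
  obtain ⟨p, hp, hp1⟩ := exists_prime (K := K) d (by omega) hd1
  obtain ⟨ε, hε, hVε⟩ := hV K p hp hp1
  set e := min ε ‖(d : K)‖ with he
  have he0 : 0 < e := lt_min hε hdn0
  have he1 : e < 1 := (min_le_right _ _).trans_lt hd1
  obtain ⟨M, hM0, hM⟩ := exists_exponent (K := K) he0
  -- the period
  have : NeZero M := ⟨hM0⟩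
  obtain ⟨b0, b1, hb01, hbm⟩ : ∃ b0 b1 : ℕ, b0 < b1 ∧
      ((d : ZMod M) ^ b0 = (d : ZMod M) ^ b1) := by
    obtain ⟨i, j, hij, h⟩ := Finite.exists_ne_map_eq_of_infinite fun n : ℕ => (d : ZMod M) ^ n
    rcases lt_or_gt_of_ne hij with h1 | h1
    · exact ⟨i, j, h1, h⟩
    · exact ⟨j, i, h1, h.symm⟩
  set L0 := b1 - b0 with hL0
  set D := d ^ L0 with hD
  have hDone : 1 ≤ D := Nat.one_le_pow _ _ (by omega)
  have hdvd : ∀ b, b0 ≤ b → M ∣ d ^ b * (D - 1) := by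
    intro b hb
    rw [← ZMod.natCast_eq_zero_iff]
    push_cast [Nat.cast_sub hDone]
    obtain ⟨c, rfl⟩ := Nat.exists_eq_add_of_le hb
    have h1 : (d : ZMod M) ^ (b0 + c) * ((D : ZMod M) - 1) =
        (d : ZMod M) ^ c * ((d : ZMod M) ^ b1 - (d : ZMod M) ^ b0) := by
      have h2 : b1 = b0 + L0 := by omega
      rw [h2, hD]
      push_cast
      ring
    rw [h1, hbm, sub_self, mul_zero]
  refine ⟨b0, L0, by omega, ?_⟩
  intro ι s c u hu b hb
  have hDK : ‖(D : K)‖ ≤ ‖(d : K)‖ := by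
    rw [hD]
    push_cast
    rw [norm_pow]
    exact pow_le_of_le_one hdn0.le hd1.le (by omega)
  have hκ : max ‖(D : K)‖ e ≤ ‖(d : K)‖ := max_le hDK (min_le_right _ _)
  -- the limits
  have hlim : ∀ i, ∃ w0 : K, i ∈ s → ‖w0‖ = 1 ∧ ‖u i ^ (d ^ b) / w0 - 1‖ ≤ e ∧
      ∀ l : ℕ, (u i ^ (d ^ b)) ^ (D ^ l) = w0 * (u i ^ (d ^ b) / w0) ^ (D ^ l) := by
    intro i
    by_cases hi : i ∈ s
    · have hv : ‖u i ^ (d ^ b)‖ = 1 := by rw [norm_pow, hu i hi, one_pow]
      obtain ⟨q, hq⟩ := hdvd b hb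
      have h1 : ‖(u i ^ (d ^ b)) ^ (D - 1) - 1‖ ≤ e := by
        rw [← pow_mul, hq, pow_mul]
        exact norm_pow_sub_one_le he0.le (by rw [norm_pow, hu i hi, one_pow]) (hM _ (hu i hi)) q
      obtain ⟨w0, h2, h3, h4⟩ := exists_limit he0.le he1 D hκ hd1 hDone hv h1
      exact ⟨w0, fun _ => ⟨h2, h3, h4⟩⟩
    · exact ⟨0, fun h => absurd h hi⟩
  choose w0 hw0 using hlim
  have hser : ∀ i, ∃ bb : ℕ → K, i ∈ s → (∀ j, ‖bb j‖ ≤ 4 * (1 / 2) ^ j) ∧
      ∀ n : ℕ, HasSum (fun j => bb j * (n : K) ^ j) ((u i ^ (d ^ b) / w0 i) ^ n) := by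
    intro i
    by_cases hi : i ∈ s
    · obtain ⟨bb, h1, h2⟩ := hVε (u i ^ (d ^ b) / w0 i - 1)
        (((hw0 i hi).2.1).trans (min_le_left _ _))
      refine ⟨bb, fun _ => ⟨h1, fun n => ?_⟩⟩
      have h3 := h2 n
      rw [add_sub_cancel] at h3
      exact h3
    · exact ⟨0, fun h => absurd h hi⟩
  choose bb hbb using hser
  set β : ℕ → K := fun j => ∑ i ∈ s, c i * w0 i * bb i j with hβ
  have hβb : ∀ j, ‖β j‖ ≤ (∑ i ∈ s, ‖c i‖ * 4) * (1 / 2) ^ j := by
    intro j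
    rw [Finset.sum_mul]
    refine norm_sum_le_of_le _ fun i hi => ?_
    rw [norm_mul, norm_mul, (hw0 i hi).1, mul_one]
    have h1 := (hbb i hi).1 j
    calc ‖c i‖ * ‖bb i j‖ ≤ ‖c i‖ * (4 * (1 / 2) ^ j) := by gcongr
      _ = _ := by ring
  have hS : ∀ l : ℕ, HasSum (fun j => β j * ((D : K) ^ l) ^ j)
      (∑ i ∈ s, c i * u i ^ (d ^ (b + L0 * l))) := by
    intro l
    have h1 : ∀ i ∈ s, HasSum (fun j => c i * w0 i * bb i j * ((D : K) ^ l) ^ j)
        (c i * u i ^ (d ^ (b + L0 * l))) := by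
      intro i hi
      have h2 := ((hbb i hi).2 (D ^ l)).mul_left (c i * w0 i)
      have h3 : c i * w0 i * (u i ^ (d ^ b) / w0 i) ^ (D ^ l) =
          c i * u i ^ (d ^ (b + L0 * l)) := by
        rw [mul_assoc, ← (hw0 i hi).2.2 l, ← pow_mul, hD, ← pow_mul, ← pow_add]
      rw [h3] at h2
      have h5 : (fun j => c i * w0 i * bb i j * ((D : K) ^ l) ^ j) =
          fun j => c i * w0 i * (bb i j * ((D ^ l : ℕ) : K) ^ j) := by
        funext j
        push_cast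
        ring
      rw [h5]
      exact h2
    have h4 := hasSum_sum h1
    have h5 : (fun j => β j * ((D : K) ^ l) ^ j) =
        fun j => ∑ i ∈ s, c i * w0 i * bb i j * ((D : K) ^ l) ^ j := by
      funext j
      rw [hβ, Finset.sum_mul]
    rw [h5]
    exact h4
  have hDn0 : 0 < ‖(D : K)‖ := by
    rw [hD]
    push_cast
    rw [norm_pow]
    positivity
  exact series_dich hDn0 (hDK.trans_lt hd1) hβb hS

end Pool.Agent.R847.BT.Padic
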