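import Pool.Agent.R847.BT.Stm

set_option autoImplicit false

namespace Pool.Agent.R847.BT.Rea

open Filter Topology

theorem main : P_R := by
  intro d hd
  refine ⟨1, 1, le_rfl, ?_⟩
  intro ι s c u hu b hb
  have hpow : ∀ e ∈ s, ∀ l : ℕ, u e ^ (d ^ (b + 1 * l)) = u e ^ (d ^ b) := by
    intro e he l
    have h1 : |u e| = 1 := by simpa [Real.norm_eq_abs] using hu e he
    rcases eq_or_eq_neg_of_abs_eq h1 with h2 | h2
    · rw [h2, one_pow, one_pow]
    · rw [h2]
      rcases Nat.even_or_odd d with hd' | hd'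
      · have e1 : Even (d ^ (b + 1 * l)) := hd'.pow_of_ne_zero (by omega)
        have e2 : Even (d ^ b) := hd'.pow_of_ne_zero (by omega)
        rw [e1.neg_one_pow, e2.neg_one_pow]
      · rw [(hd'.pow).neg_one_pow, (hd'.pow).neg_one_pow]
  have hsum : ∀ l : ℕ, ∑ e ∈ s, c e * u e ^ (d ^ (b + 1 * l)) = ∑ e ∈ s, c e * u e ^ (d ^ b) :=
    fun l => Finset.sum_congr rfl (fun e he => by rw [hpow e he l])
  by_cases h0 : ∑ e ∈ s, c e * u e ^ (d ^ b) = 0
  · left
    intro l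
    rw [hsum l, h0]
  · right
    refine ⟨‖∑ e ∈ s, c e * u e ^ (d ^ b)‖, norm_pos_iff.mpr h0, 1, one_pos, ?_⟩
    refine Filter.Eventually.of_forall (fun l => ?_)
    rw [hsum l, one_pow, mul_one]

end Pool.Agent.R847.BT.Rea
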