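import Mathlib

/-!
# Exponential sums along `d ^ n`: the dichotomy and the identity principle (statements)
-/

set_option autoImplicit false

namespace Pool.Agent.R847.BT

open Filter Topology

/-- Dichotomy for exponential sums with units as bases, along `d ^ (b + L0 * l)`: such a sum
vanishes for all `l`, or it is at least `δ * θ ^ l` for all large `l`. -/
def Dich (K : Type) [NormedField K] (d : ℕ) : Prop :=
  ∃ b0 L0 : ℕ, 1 ≤ L0 ∧ ∀ (ι : Type) (s : Finset ι) (c u : ι → K), (∀ e ∈ s, ‖u e‖ = 1) →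
    ∀ b, b0 ≤ b →
      (∀ l : ℕ, ∑ e ∈ s, c e * u e ^ (d ^ (b + L0 * l)) = 0) ∨
      ∃ δ : ℝ, 0 < δ ∧ ∃ θ : ℝ, 0 < θ ∧ ∀ᶠ l : ℕ in atTop,
        δ * θ ^ l ≤ ‖∑ e ∈ s, c e * u e ^ (d ^ (b + L0 * l))‖

/-- The identity principle for infinite exponential sums along `d ^ (b + L0 * l)`. -/
def Ident (K : Type) [NormedField K] (d : ℕ) : Prop :=
  ∃ b0 L0 : ℕ, 1 ≤ L0 ∧ ∀ (I : Type) (γ μ : I → K), (∀ e, μ e ≠ 0) →
    (Summable fun e => ‖γ e‖ * ‖μ e‖) → (∀ θ : ℝ, 0 < θ → {e | θ ≤ ‖μ e‖}.Finite) →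
    ∀ b, b0 ≤ b → (∃ᶠ l : ℕ in atTop, ∑' e, γ e * μ e ^ (d ^ (b + L0 * l)) = 0) →
      ∀ l : ℕ, ∑' e, γ e * μ e ^ (d ^ (b + L0 * l)) = 0

/-- Task BT-R -/
def P_R : Prop := ∀ d : ℕ, 2 ≤ d → Dich ℝ d

/-- Task BT-P -/
def P_P : Prop := ∀ (K : Type) [NontriviallyNormedField K] [ProperSpace K] [IsUltrametricDist K]
  [CharZero K] (d : ℕ), 2 ≤ d → ‖(d : K)‖ < 1 → Dich K d

/-- Task BT-I -/
def P_I : Prop := ∀ (K : Type) [NormedField K] [CompleteSpace K] (d : ℕ), 2 ≤ d →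
  Dich K d → Ident K d

/-- Task BT-V: power series of `z ↦ (1 + ν) ^ z` for small `ν` -/
def P_V : Prop := ∀ (K : Type) [NontriviallyNormedField K] [CompleteSpace K] [IsUltrametricDist K]
  [CharZero K] (p : ℕ), p.Prime → ‖(p : K)‖ < 1 →
  ∃ ε : ℝ, 0 < ε ∧ ∀ ν : K, ‖ν‖ ≤ ε → ∃ b : ℕ → K, (∀ j, ‖b j‖ ≤ 4 * (1 / 2) ^ j) ∧
    ∀ n : ℕ, HasSum (fun j => b j * (n : K) ^ j) ((1 + ν) ^ n)

end Pool.Agent.R847.BT
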