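import Pool.Agent.R847.BT.Stm

set_option autoImplicit false

namespace Pool.Agent.R847.BT.Vps

open Filter Topology Polynomial

section

variable {K : Type} [NontriviallyNormedField K] [IsUltrametricDist K] [CharZero K]

/-- units -/
theorem norm_coprime {p : ℕ} (hp1 : ‖(p : K)‖ < 1) {m : ℕ} (h : Nat.Coprime p m) :
    ‖(m : K)‖ = 1 := by
  refine le_antisymm (IsUltrametricDist.norm_natCast_le_one K m) ?_
  have h1 : ((p : ℤ) * Nat.gcdA p m + (m : ℤ) * Nat.gcdB p m : ℤ) = 1 := by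
    rw [← Nat.gcd_eq_gcd_ab, h]
    rfl
  have h2 : (p : K) * ((Nat.gcdA p m : ℤ) : K) + (m : K) * ((Nat.gcdB p m : ℤ) : K) = 1 := by
    exact_mod_cast congrArg (fun z : ℤ => (z : K)) h1
  by_contra hlt
  push Not at hlt
  have h3 : ‖(p : K) * ((Nat.gcdA p m : ℤ) : K)‖ < 1 := by
    rw [norm_mul]
    calc ‖(p : K)‖ * ‖((Nat.gcdA p m : ℤ) : K)‖ ≤ ‖(p : K)‖ * 1 :=
          mul_le_mul_of_nonneg_left (IsUltrametricDist.norm_intCast_le_one K _) (norm_nonneg _)
      _ < 1 := by rwa [mul_one]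
  have h4 : ‖(m : K) * ((Nat.gcdB p m : ℤ) : K)‖ < 1 := by
    rw [norm_mul]
    calc ‖(m : K)‖ * ‖((Nat.gcdB p m : ℤ) : K)‖ ≤ ‖(m : K)‖ * 1 :=
          mul_le_mul_of_nonneg_left (IsUltrametricDist.norm_intCast_le_one K _) (norm_nonneg _)
      _ < 1 := by rwa [mul_one]
  have h5 := IsUltrametricDist.norm_add_le_max ((p : K) * ((Nat.gcdA p m : ℤ) : K))
    ((m : K) * ((Nat.gcdB p m : ℤ) : K))
  rw [h2, norm_one] at h5
  exact absurd h5 (not_le.mpr (max_lt h3 h4))

theorem norm_factorial_ge {p : ℕ} (hp : p.Prime) (hp1 : ‖(p : K)‖ < 1) (i : ℕ) :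
    ‖(p : K)‖ ^ i ≤ ‖((Nat.factorial i : ℕ) : K)‖ := by
  have := Fact.mk hp
  have h0 : Nat.factorial i ≠ 0 := Nat.factorial_ne_zero i
  obtain ⟨m, hm⟩ := (pow_padicValNat_dvd (p := p) (n := Nat.factorial i))
  have hcop : Nat.Coprime p m := by
    rw [hp.coprime_iff_not_dvd]
    rintro ⟨m', hm'⟩
    have h2 : p ^ (padicValNat p (Nat.factorial i) + 1) ∣ Nat.factorial i :=
      ⟨m', by rw [pow_succ, mul_assoc, ← hm']; exact hm⟩
    exact pow_succ_padicValNat_not_dvd h0 h2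
  have hv : padicValNat p (Nat.factorial i) ≤ i := by
    have h3 := sub_one_mul_padicValNat_factorial (p := p) i
    have h4 : 1 ≤ p - 1 := by have := hp.two_le; omega
    calc padicValNat p (Nat.factorial i) ≤ (p - 1) * padicValNat p (Nat.factorial i) :=
          Nat.le_mul_of_pos_left _ h4
      _ = i - (p.digits i).sum := h3
      _ ≤ i := Nat.sub_le _ _
  have h6 : ((Nat.factorial i : ℕ) : K) = (p : K) ^ (padicValNat p (Nat.factorial i)) * (m : K) := by
    conv_lhs => rw [hm]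
    push_cast
    rfl
  rw [h6, norm_mul, norm_coprime hp1 hcop, mul_one, norm_pow]
  exact pow_le_pow_of_le_one (norm_nonneg _) hp1.le hv

/-- the coefficients -/
noncomputable def tt (ν : K) (i j : ℕ) : K :=
  (((descPochhammer ℤ i).coeff j : ℤ) : K) * ν ^ i / ((Nat.factorial i : ℕ) : K)

theorem tt_zero (ν : K) {i j : ℕ} (h : i < j) : tt ν i j = 0 := by
  have : (descPochhammer ℤ i).coeff j = 0 :=
    Polynomial.coeff_eq_zero_of_natDegree_lt (by rw [descPochhammer_natDegree]; exact h)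
  simp [tt, this]

theorem tt_norm {p : ℕ} (hp : p.Prime) (hp1 : ‖(p : K)‖ < 1) {ν : K} (hν : ‖ν‖ ≤ ‖(p : K)‖ / 4)
    (i j : ℕ) : ‖tt ν i j‖ ≤ (1 / 2) ^ i * (1 / 2) ^ j := by
  by_cases h : i < j
  · rw [tt_zero ν h, norm_zero]
    positivity
  · push Not at h
    have hp0 : 0 < ‖(p : K)‖ := norm_pos_iff.mpr (by exact_mod_cast hp.ne_zero)
    have h1 : ‖tt ν i j‖ ≤ (1 / 4) ^ i := by
      unfold tt
      rw [norm_div, norm_mul, norm_pow]
      have h2 := norm_factorial_ge (K := K) hp hp1 i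
      have h3 : 0 < ‖(p : K)‖ ^ i := pow_pos hp0 i
      have h4 : 0 < ‖((Nat.factorial i : ℕ) : K)‖ := lt_of_lt_of_le h3 h2
      rw [div_le_iff₀ h4]
      calc ‖(((descPochhammer ℤ i).coeff j : ℤ) : K)‖ * ‖ν‖ ^ i ≤ 1 * (‖(p : K)‖ / 4) ^ i := by
            refine mul_le_mul (IsUltrametricDist.norm_intCast_le_one K _) ?_ (by positivity) zero_le_one
            exact pow_le_pow_left₀ (norm_nonneg _) hν i
        _ = (1 / 4) ^ i * ‖(p : K)‖ ^ i := by
            rw [one_mul, div_eq_mul_one_div, mul_pow, mul_comm]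
        _ ≤ (1 / 4) ^ i * ‖((Nat.factorial i : ℕ) : K)‖ :=
            mul_le_mul_of_nonneg_left h2 (by positivity)
    refine h1.trans ?_
    have h5 : ((1 : ℝ) / 4) ^ i = (1 / 2) ^ i * (1 / 2) ^ i := by
      rw [← mul_pow]; norm_num
    rw [h5]
    exact mul_le_mul_of_nonneg_left (pow_le_pow_of_le_one (by norm_num) (by norm_num) h)
      (by positivity)

theorem row_sum (ν : K) (n i : ℕ) :
    ∑ j ∈ Finset.range (i + 1), tt ν i j * (n : K) ^ j = (Nat.choose n i : K) * ν ^ i := by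
  have h1 : ((descPochhammer K i).eval (n : K)) = (n.descFactorial i : K) :=
    descPochhammer_eval_eq_descFactorial K n i
  have h2 : descPochhammer K i = (descPochhammer ℤ i).map (Int.castRingHom K) :=
    (descPochhammer_map (Int.castRingHom K) i).symm
  have h3 : (descPochhammer K i).eval (n : K)
      = ∑ j ∈ Finset.range (i + 1), (((descPochhammer ℤ i).coeff j : ℤ) : K) * (n : K) ^ j := by
    rw [h2, Polynomial.eval_map, Polynomial.eval₂_eq_sum_range, descPochhammer_natDegree]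
    rfl
  have hf : ((Nat.factorial i : ℕ) : K) ≠ 0 := by exact_mod_cast Nat.factorial_ne_zero i
  have h4 : (n.descFactorial i : K) = (Nat.factorial i : K) * (Nat.choose n i : K) := by
    rw [Nat.descFactorial_eq_factorial_mul_choose]
    push_cast
    rfl
  have h5 : ∑ j ∈ Finset.range (i + 1), tt ν i j * (n : K) ^ j
      = (∑ j ∈ Finset.range (i + 1), (((descPochhammer ℤ i).coeff j : ℤ) : K) * (n : K) ^ j)
        * (ν ^ i / ((Nat.factorial i : ℕ) : K)) := by
    rw [Finset.sum_mul]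
    refine Finset.sum_congr rfl (fun j _ => ?_)
    unfold tt
    ring
  rw [h5, ← h3, h1, h4]
  field_simp

end

theorem main : P_V := by
  intro K _ _ _ _ p hp hp1
  have hp0 : 0 < ‖(p : K)‖ := norm_pos_iff.mpr (by exact_mod_cast hp.ne_zero)
  refine ⟨‖(p : K)‖ / 4, by positivity, ?_⟩
  intro ν hν
  have hgeo : Summable (fun i : ℕ => ((1 : ℝ) / 2) ^ i) := summable_geometric_two
  have hgeo2 : ∑' i : ℕ, ((1 : ℝ) / 2) ^ i = 2 := tsum_geometric_two
  have hprod : Summable (fun x : ℕ × ℕ => ((1 : ℝ) / 2) ^ x.1 * (1 / 2) ^ x.2) :=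
    hgeo.mul_of_nonneg hgeo (fun i => by positivity) (fun i => by positivity)
  refine ⟨fun j => ∑' i, tt ν i j, ?_, ?_⟩
  · intro j
    have h1 : Summable (fun i : ℕ => ((1 : ℝ) / 2) ^ i * (1 / 2) ^ j) := hgeo.mul_right _
    refine (tsum_of_norm_bounded h1.hasSum (fun i => tt_norm hp hp1 hν i j)).trans ?_
    rw [tsum_mul_right, hgeo2]
    have : (0 : ℝ) < (1 / 2) ^ j := by positivity
    linarith
  · intro n
    have hn1 : ‖(n : K)‖ ≤ 1 := IsUltrametricDist.norm_natCast_le_one K n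
    have hbd : ∀ x : ℕ × ℕ, ‖tt ν x.1 x.2 * (n : K) ^ x.2‖ ≤ (1 / 2) ^ x.1 * (1 / 2) ^ x.2 := by
      intro x
      rw [norm_mul, norm_pow]
      calc ‖tt ν x.1 x.2‖ * ‖(n : K)‖ ^ x.2 ≤ ((1 / 2) ^ x.1 * (1 / 2) ^ x.2) * 1 :=
            mul_le_mul (tt_norm hp hp1 hν _ _) (pow_le_one₀ (norm_nonneg _) hn1) (by positivity)
              (by positivity)
        _ = _ := mul_one _
    have hS : Summable (fun x : ℕ × ℕ => tt ν x.1 x.2 * (n : K) ^ x.2) :=
      Summable.of_norm_bounded hprod hbd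
    have hrow : ∀ i, HasSum (fun j => tt ν i j * (n : K) ^ j) ((Nat.choose n i : K) * ν ^ i) := by
      intro i
      rw [← row_sum ν n i]
      refine hasSum_sum_of_ne_finset_zero (fun j hj => ?_)
      rw [Finset.mem_range, not_lt] at hj
      rw [tt_zero ν (by omega), zero_mul]
    have hcol : ∀ j, HasSum (fun i => tt ν i j * (n : K) ^ j) ((∑' i, tt ν i j) * (n : K) ^ j) := by
      intro j
      have h1 : Summable (fun i => tt ν i j) :=
        Summable.of_norm_bounded (hgeo.mul_right _) (fun i => tt_norm hp hp1 hν i j)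
      exact h1.hasSum.mul_right _
    have htot1 : ∑' x : ℕ × ℕ, tt ν x.1 x.2 * (n : K) ^ x.2 = (1 + ν) ^ n := by
      have h1 := hS.hasSum.prod_fiberwise hrow
      have h2 : HasSum (fun i => (Nat.choose n i : K) * ν ^ i) ((1 + ν) ^ n) := by
        have h3 : (1 + ν) ^ n = ∑ i ∈ Finset.range (n + 1), (Nat.choose n i : K) * ν ^ i := by
          rw [add_comm, add_pow]
          refine Finset.sum_congr rfl (fun i _ => ?_)
          rw [one_pow, mul_one, mul_comm]
        rw [h3]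
        refine hasSum_sum_of_ne_finset_zero (fun i hi => ?_)
        rw [Finset.mem_range, not_lt] at hi
        rw [Nat.choose_eq_zero_of_lt (by omega)]
        simp
      exact h1.unique h2
    have hS1 : HasSum (fun x : ℕ × ℕ => tt ν x.1 x.2 * (n : K) ^ x.2) ((1 + ν) ^ n) := by
      rw [← htot1]
      exact hS.hasSum
    have hS' : HasSum (fun x : ℕ × ℕ => tt ν x.2 x.1 * (n : K) ^ x.1) ((1 + ν) ^ n) :=
      (Equiv.hasSum_iff (f := fun x : ℕ × ℕ => tt ν x.1 x.2 * (n : K) ^ x.2)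
        (Equiv.prodComm ℕ ℕ)).mpr hS1
    exact HasSum.prod_fiberwise (f := fun x : ℕ × ℕ => tt ν x.2 x.1 * (n : K) ^ x.1) hS' hcol

end Pool.Agent.R847.BT.Vps
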